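import Pool.Agent.P8H72.RE.Stm

/-!
# Project RE, package FMX (helper5): the finite form for matrices over any finite index set
-/

set_option autoImplicit false

namespace Pool.Agent.P8H5.RE

open Matrix Finset
open scoped ComplexOrder
open Pool.Agent.P8H72.RE
open Pool.Agent.W661.RC (hs HasT Le)
open Pool.Agent.N52.ST (S_FM)

variable {X Y : Type} [Fintype X] [DecidableEq X] [Fintype Y] [DecidableEq Y]

omit [DecidableEq X] [DecidableEq Y] in
theorem hs_submatrix (e : Y ≃ X) (M : Matrix X X ℂ) : hs (M.submatrix e e) = hs M := by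
  unfold hs
  simp only [submatrix_apply]
  rw [Equiv.sum_comp e (fun i => ∑ j, ‖M i (e j)‖ ^ 2)]
  exact Finset.sum_congr rfl fun i _ => Equiv.sum_comp e (fun j => ‖M i j‖ ^ 2)

/-- transport of unitary matrices -/
def tru (e : Y ≃ X) : unitaryGroup X ℂ →* unitaryGroup Y ℂ where
  toFun U := ⟨U.1.submatrix e e, by
    rw [mem_unitaryGroup_iff, star_eq_conjTranspose, conjTranspose_submatrix, submatrix_mul_equiv]
    have h : U.1 * U.1ᴴ = 1 := by
      have := mem_unitaryGroup_iff.1 U.2
      rwa [star_eq_conjTranspose] at this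
    rw [h, submatrix_one_equiv]⟩
  map_one' := by
    apply Subtype.ext
    show (1 : Matrix X X ℂ).submatrix e e = 1
    exact submatrix_one_equiv e
  map_mul' U V := by
    apply Subtype.ext
    show (U.1 * V.1).submatrix e e = U.1.submatrix e e * V.1.submatrix e e
    rw [submatrix_mul_equiv]

theorem tru_lift (e : Y ≃ X) {n : ℕ} (U : Fin n → unitaryGroup X ℂ) (w : FreeGroup (Fin n)) :
    (FreeGroup.lift (fun i => tru e (U i)) w).1 = (FreeGroup.lift U w).1.submatrix e e := by
  have h : FreeGroup.lift (fun i => tru e (U i)) = (tru e).comp (FreeGroup.lift U) := by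
    ext1 i
    simp
  rw [h]
  rfl

theorem t_FMX : S_FM → S_FMX := by
  intro hFM G _ K hG hK hcl n γ hγ g hg x hx ε hε
  obtain ⟨δ, R, S, hδ, hR, hS, hmain⟩ := hFM G K hG hK hcl n γ hγ g hg x hx ε hε
  refine ⟨δ, R, S, hδ, hR, hS, ?_⟩
  intro X _ _ _ U V h1 h2
  set e : Fin (Fintype.card X) ≃ X := (Fintype.equivFin X).symm with he
  have hd : 0 < Fintype.card X := Fintype.card_pos
  have h3 := hmain (Fintype.card X) (fun i => tru e (U i)) (tru e V).1 hd ?_ ?_ ?_
  · rw [tru_lift] at h3
    have h4 : (FreeGroup.lift U x).1.submatrix e e * (tru e V).1 - (tru e V).1 *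
        (FreeGroup.lift U x).1.submatrix e e =
        ((FreeGroup.lift U x).1 * V.1 - V.1 * (FreeGroup.lift U x).1).submatrix e e := by
      show (FreeGroup.lift U x).1.submatrix e e * V.1.submatrix e e - V.1.submatrix e e *
        (FreeGroup.lift U x).1.submatrix e e = _
      rw [submatrix_mul_equiv, submatrix_mul_equiv]
      rfl
    rw [h4, hs_submatrix] at h3
    exact h3
  · intro w hw
    rw [tru_lift]
    have h4 : (FreeGroup.lift U w).1.submatrix e e - 1 = ((FreeGroup.lift U w).1 - 1).submatrix e e := by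
      rw [← submatrix_one_equiv e]
      rfl
    rw [h4, hs_submatrix]
    exact h1 w hw
  · have h5 : (tru e V).1ᴴ * (tru e V).1 = 1 := by
      have := mem_unitaryGroup_iff'.1 (tru e V).2
      rwa [star_eq_conjTranspose] at this
    rw [h5]
    unfold Le
    rw [sub_self]
    exact PosSemidef.zero
  · intro w hw
    rw [tru_lift]
    have h4 : (FreeGroup.lift U w).1.submatrix e e * (tru e V).1 - (tru e V).1 *
        (FreeGroup.lift U w).1.submatrix e e =
        ((FreeGroup.lift U w).1 * V.1 - V.1 * (FreeGroup.lift U w).1).submatrix e e := by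
      show (FreeGroup.lift U w).1.submatrix e e * V.1.submatrix e e - V.1.submatrix e e *
        (FreeGroup.lift U w).1.submatrix e e = _
      rw [submatrix_mul_equiv, submatrix_mul_equiv]
      rfl
    rw [h4, hs_submatrix]
    exact h2 w hw

end Pool.Agent.P8H5.RE
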