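import Pool.Agent.P8H72.RE.Stm

/-!
# Project RE, package GRP (helper5): a co-amenable pair
-/

set_option autoImplicit false

namespace Pool.Agent.P8H5.RE

open Filter Topology Finset
open Pool.Agent.P8H72.RE
open Pool.Agent.N557.QW (RF)


/-! ### Limits of averages -/

/-- the limit along a nonprincipal ultrafilter -/
noncomputable def ulim (u : ℕ → ℝ) : ℝ := limUnder (hyperfilter ℕ : Filter ℕ) u

theorem ulim_spec (u : ℕ → ℝ) (C : ℝ) (hC : ∀ n, |u n| ≤ C) :
    Tendsto u (hyperfilter ℕ : Filter ℕ) (𝓝 (ulim u)) := by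
  apply tendsto_nhds_limUnder
  have hc : IsCompact (Set.Icc (-C) C) := isCompact_Icc
  obtain ⟨x, -, hx⟩ := hc.ultrafilter_le_nhds ((hyperfilter ℕ).map u) (by
    rw [le_principal_iff]
    show u ⁻¹' (Set.Icc (-C) C) ∈ (hyperfilter ℕ : Filter ℕ)
    exact Filter.univ_mem' fun n => abs_le.1 (hC n))
  exact ⟨x, hx⟩

/-- the averages -/
noncomputable def avg (u : ℕ → ℝ) (n : ℕ) : ℝ := (∑ i ∈ range (n + 1), u i) / (n + 1)

theorem avg_bdd (u : ℕ → ℝ) (C : ℝ) (hC : ∀ n, |u n| ≤ C) (n : ℕ) : |avg u n| ≤ C := by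
  unfold avg
  rw [abs_div, div_le_iff₀ (by positivity), abs_of_pos (by positivity : (0 : ℝ) < (n : ℝ) + 1)]
  calc |∑ i ∈ range (n + 1), u i| ≤ ∑ i ∈ range (n + 1), |u i| := abs_sum_le_sum_abs _ _
    _ ≤ ∑ _i ∈ range (n + 1), C := sum_le_sum fun i _ => hC i
    _ = C * (n + 1) := by simp [mul_comm]

/-- the mean -/
noncomputable def mn (u : ℕ → ℝ) : ℝ := ulim (avg u)

theorem mn_spec (u : ℕ → ℝ) (C : ℝ) (hC : ∀ n, |u n| ≤ C) :
    Tendsto (avg u) (hyperfilter ℕ : Filter ℕ) (𝓝 (mn u)) :=
  ulim_spec _ C (avg_bdd u C hC)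

theorem mn_one : mn (fun _ => 1) = 1 := by
  have h := mn_spec (fun _ => 1) 1 (by simp)
  have h1 : avg (fun _ => 1) = fun _ => 1 := by
    funext n
    unfold avg
    rw [sum_const, card_range, nsmul_eq_mul, mul_one]
    push_cast
    exact div_self (by positivity)
  rw [h1] at h
  exact tendsto_nhds_unique h tendsto_const_nhds

theorem mn_nonneg (u : ℕ → ℝ) (C : ℝ) (hC : ∀ n, |u n| ≤ C) (h0 : ∀ n, 0 ≤ u n) : 0 ≤ mn u := by
  refine ge_of_tendsto (mn_spec u C hC) (Eventually.of_forall fun n => ?_)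
  unfold avg
  have := sum_nonneg fun i (_ : i ∈ range (n + 1)) => h0 i
  positivity

theorem mn_add (u v : ℕ → ℝ) (C D : ℝ) (hC : ∀ n, |u n| ≤ C) (hD : ∀ n, |v n| ≤ D) :
    mn (fun n => u n + v n) = mn u + mn v := by
  have h := mn_spec (fun n => u n + v n) (C + D) (fun n => (abs_add_le _ _).trans (add_le_add (hC n) (hD n)))
  have h1 : avg (fun n => u n + v n) = fun n => avg u n + avg v n := by
    funext n
    unfold avg
    rw [sum_add_distrib, add_div]
  rw [h1] at h
  exact tendsto_nhds_unique h ((mn_spec u C hC).add (mn_spec v D hD))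

theorem mn_smul (c : ℝ) (u : ℕ → ℝ) (C : ℝ) (hC : ∀ n, |u n| ≤ C) :
    mn (fun n => c * u n) = c * mn u := by
  have h := mn_spec (fun n => c * u n) (|c| * C) (fun n => by
    rw [abs_mul]
    exact mul_le_mul_of_nonneg_left (hC n) (abs_nonneg c))
  have h1 : avg (fun n => c * u n) = fun n => c * avg u n := by
    funext n
    unfold avg
    rw [← mul_sum, mul_div_assoc]
  rw [h1] at h
  exact tendsto_nhds_unique h ((mn_spec u C hC).const_mul c)

/-- sequences whose difference has bounded partial sums have the same mean -/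
theorem mn_eq (u v : ℕ → ℝ) (C D E : ℝ) (hC : ∀ n, |u n| ≤ C) (hD : ∀ n, |v n| ≤ D)
    (hE : ∀ n, |∑ i ∈ range (n + 1), (u i - v i)| ≤ E) : mn u = mn v := by
  have h1 : Tendsto (fun n => avg u n - avg v n) (hyperfilter ℕ : Filter ℕ) (𝓝 0) := by
    have h2 : Tendsto (fun n => avg u n - avg v n) atTop (𝓝 0) := by
      have h3 : Tendsto (fun n : ℕ => E / ((n : ℝ) + 1)) atTop (𝓝 0) :=
        Tendsto.div_atTop tendsto_const_nhds (tendsto_atTop_add_const_right _ _ tendsto_natCast_atTop_atTop)
      refine squeeze_zero_norm (fun n => ?_) h3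
      rw [Real.norm_eq_abs]
      unfold avg
      rw [← sub_div, ← sum_sub_distrib, abs_div, abs_of_pos (by positivity : (0 : ℝ) < (n : ℝ) + 1)]
      exact div_le_div_of_nonneg_right (hE n) (by positivity)
    exact h2.mono_left Nat.hyperfilter_le_atTop
  have h4 := (mn_spec u C hC).sub (mn_spec v D hD)
  have := tendsto_nhds_unique h1 h4
  linarith

/-! ### The group -/

section grp

variable (G : Type) [Group G]

/-- finitely supported functions -/
def FS : Subgroup (ℤ → G) where
  carrier := {f | {k | f k ≠ 1}.Finite}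
  one_mem' := by simp
  mul_mem' := by
    intro f g hf hg
    refine (hf.union hg).subset fun k hk => ?_
    by_contra h
    have h1 : f k = 1 := by
      by_contra h1
      exact h (Or.inl h1)
    have h2 : g k = 1 := by
      by_contra h2
      exact h (Or.inr h2)
    exact hk (by simp [h1, h2])
  inv_mem' := by
    intro f hf
    refine hf.subset fun k hk => ?_
    intro h
    exact hk (by simp [h])

variable {G}

theorem shift_fin (n : ℤ) (f : FS G) : (fun k => f.1 (k - n)) ∈ FS G := by
  have h : {k | f.1 k ≠ 1}.Finite := f.2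
  refine (h.image (fun k => k + n)).subset fun k hk => ⟨k - n, hk, by simp⟩

/-- the shift -/
def sh (n : ℤ) : FS G ≃* FS G where
  toFun f := ⟨fun k => f.1 (k - n), shift_fin n f⟩
  invFun f := ⟨fun k => f.1 (k - -n), shift_fin (-n) f⟩
  left_inv f := by
    ext k
    simp
  right_inv f := by
    ext k
    simp
  map_mul' f g := by
    ext k
    simp

/-- the action -/
def act : Multiplicative ℤ →* MulAut (FS G) where
  toFun n := sh n.toAdd
  map_one' := by
    ext f k
    simp [sh]
  map_mul' m n := by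
    ext f k
    show f.1 (k - (m.toAdd + n.toAdd)) = f.1 (k - m.toAdd - n.toAdd)
    rw [sub_sub]

variable (G) in
/-- the restricted wreath product -/
abbrev Ga : Type := FS G ⋊[act] Multiplicative ℤ

/-- the subgroup -/
def Hs (K : Subgroup G) : Subgroup (Ga G) where
  carrier := {x | x.right = 1 ∧ ∀ k < 0, x.left.1 k ∈ K}
  one_mem' := ⟨rfl, fun k _ => K.one_mem⟩
  mul_mem' := by
    rintro x y ⟨hx1, hx2⟩ ⟨hy1, hy2⟩
    refine ⟨by rw [SemidirectProduct.mul_right, hx1, hy1, one_mul], fun k hk => ?_⟩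
    rw [SemidirectProduct.mul_left, hx1, map_one]
    exact K.mul_mem (hx2 k hk) (hy2 k hk)
  inv_mem' := by
    rintro x ⟨hx1, hx2⟩
    refine ⟨by rw [SemidirectProduct.inv_right, hx1, inv_one], fun k hk => ?_⟩
    rw [SemidirectProduct.inv_left, hx1, inv_one, map_one]
    exact K.inv_mem (hx2 k hk)

theorem mem_Hs (K : Subgroup G) (x : Ga G) : x ∈ Hs K ↔ x.right = 1 ∧ ∀ k < 0, x.left.1 k ∈ K := Iff.rfl

open Classical in
/-- the embedding of `G` at the place `-1` -/
noncomputable def sg : G →* FS G where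
  toFun g := ⟨Pi.mulSingle (-1) g, (Set.finite_singleton (-1 : ℤ)).subset fun k hk => by
    by_contra h
    exact hk (Pi.mulSingle_eq_of_ne (M := fun _ => G) h g)⟩
  map_one' := by
    ext k
    simp
  map_mul' g h := by
    ext k
    simp [Pi.mulSingle_mul]

/-- the embedding of `G` -/
noncomputable def jj : G →* Ga G := SemidirectProduct.inl.comp sg

theorem jj_mem (K : Subgroup G) (g : G) : jj g ∈ Hs K ↔ g ∈ K := by
  classical
  rw [mem_Hs]
  constructor
  · rintro ⟨-, h⟩
    have := h (-1) (by norm_num)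
    simpa [jj, sg] using this
  · intro hg
    refine ⟨rfl, fun k hk => ?_⟩
    show (Pi.mulSingle (-1) g : ℤ → G) k ∈ K
    by_cases h : k = -1
    · subst h
      simpa using hg
    · rw [Pi.mulSingle_eq_of_ne (M := fun _ => G) h g]
      exact K.one_mem

theorem countable_Ga (hG : Countable G) : Countable (Ga G) := by
  classical
  have h1 : Countable (FS G) := by
    have : Function.Injective (fun f : FS G => ((f.2 : {k | f.1 k ≠ 1}.Finite).toFinset.image
        (fun k => (k, f.1 k)) : Finset (ℤ × G))) := by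
      intro f g hfg
      have key : ∀ f : FS G, ∀ k, ∀ y, (k, y) ∈ ((f.2 : {k | f.1 k ≠ 1}.Finite).toFinset.image
        (fun k => (k, f.1 k)) : Finset (ℤ × G)) ↔ f.1 k = y ∧ y ≠ 1 := by
        intro f k y
        simp only [mem_image, Prod.mk.injEq]
        constructor
        · rintro ⟨a, ha, rfl, rfl⟩
          exact ⟨rfl, (Set.Finite.mem_toFinset _).1 ha⟩
        · rintro ⟨rfl, h⟩
          exact ⟨k, (Set.Finite.mem_toFinset _).2 h, rfl, rfl⟩
      ext k
      by_contra hne
      simp only at hfg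
      by_cases h0 : f.1 k = 1
      · have h2 : (k, g.1 k) ∈ ((g.2 : {k | g.1 k ≠ 1}.Finite).toFinset.image
          (fun k => (k, g.1 k)) : Finset (ℤ × G)) := (key g k _).2 ⟨rfl, fun h => hne (by rw [h0, h])⟩
        rw [← hfg, key] at h2
        exact hne h2.1
      · have h2 : (k, f.1 k) ∈ ((f.2 : {k | f.1 k ≠ 1}.Finite).toFinset.image
          (fun k => (k, f.1 k)) : Finset (ℤ × G)) := (key f k _).2 ⟨rfl, h0⟩
        rw [hfg, key] at h2
        exact hne h2.1.symm
    exact this.countable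
  have h2 : Countable (Multiplicative ℤ) := inferInstanceAs (Countable ℤ)
  exact (SemidirectProduct.equivProd (φ := (act : Multiplicative ℤ →* MulAut (FS G)))).injective.countable

/-- evaluation on the subgroup -/
def evh (K : Subgroup G) (k : ℤ) : Hs K →* G where
  toFun h := h.1.left.1 k
  map_one' := rfl
  map_mul' x y := by
    show ((x.1 * y.1).left).1 k = _
    rw [SemidirectProduct.mul_left, x.2.1, map_one]
    rfl

theorem rf_Hs (K : Subgroup G) (hG : RF G) : RF (Hs K) := by
  classical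
  intro F
  set J : Finset ℤ := F.biUnion fun h => (h.1.left.2 : {k | h.1.left.1 k ≠ 1}.Finite).toFinset with hJ
  obtain ⟨Q, _, _, φ, hφ⟩ := hG (F.biUnion fun h => J.image fun k => h.1.left.1 k)
  refine ⟨J → Q, inferInstance, inferInstance, MonoidHom.pi fun k => φ.comp (evh K k), ?_⟩
  intro x hx y hy hxy
  have h1 : ∀ k, x.1.left.1 k = y.1.left.1 k := by
    intro k
    by_cases hk : k ∈ J
    · have h2 := congrFun hxy ⟨k, hk⟩
      refine hφ ?_ ?_ h2
      · exact mem_coe.2 (mem_biUnion.2 ⟨x, hx, mem_image.2 ⟨k, hk, rfl⟩⟩)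
      · exact mem_coe.2 (mem_biUnion.2 ⟨y, hy, mem_image.2 ⟨k, hk, rfl⟩⟩)
    · have h3 : ∀ z ∈ F, z.1.left.1 k = 1 := by
        intro z hz
        by_contra h
        exact hk (mem_biUnion.2 ⟨z, hz, (Set.Finite.mem_toFinset _).2 h⟩)
      rw [h3 x hx, h3 y hy]
  apply Subtype.ext
  apply SemidirectProduct.ext
  · exact Subtype.ext (funext h1)
  · rw [x.2.1, y.2.1]

/-! ### The invariant mean -/

/-- the generator -/
def sgen : Ga G := SemidirectProduct.inr (Multiplicative.ofAdd 1)

/-- the cosets -/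
def xs (K : Subgroup G) (i : ℕ) : Ga G ⧸ Hs K :=
  ((SemidirectProduct.inr (Multiplicative.ofAdd (-(i : ℤ))) : Ga G) : Ga G ⧸ Hs K)

theorem sgen_xs (K : Subgroup G) (i : ℕ) : (sgen : Ga G) • xs K (i + 1) = xs K i := by
  unfold xs sgen
  rw [MulAction.Quotient.smul_coe, smul_eq_mul, ← map_mul, ← ofAdd_add]
  congr 3
  push_cast
  ring

theorem inl_xs (K : Subgroup G) (f : FS G) : ∃ i0 : ℕ, ∀ i, i0 ≤ i →
    (SemidirectProduct.inl f : Ga G) • xs K i = xs K i := by
  classical
  have hf : {k | f.1 k ≠ 1}.Finite := f.2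
  obtain ⟨b, hb⟩ := hf.bddBelow
  refine ⟨(-b).toNat, fun i hi => ?_⟩
  unfold xs
  rw [MulAction.Quotient.smul_coe, smul_eq_mul, eq_comm, QuotientGroup.eq, mem_Hs]
  constructor
  · simp
  · intro k hk
    have h0 : (((SemidirectProduct.inr (Multiplicative.ofAdd (-(i : ℤ))) : Ga G))⁻¹ *
        (SemidirectProduct.inl f * SemidirectProduct.inr (Multiplicative.ofAdd (-(i : ℤ))))) =
        SemidirectProduct.inl ((act (Multiplicative.ofAdd (-(i : ℤ))))⁻¹ f) := by
      rw [SemidirectProduct.inl_aut_inv, mul_assoc, map_inv]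
    have h1 : (((SemidirectProduct.inr (Multiplicative.ofAdd (-(i : ℤ))) : Ga G))⁻¹ *
        (SemidirectProduct.inl f * SemidirectProduct.inr (Multiplicative.ofAdd (-(i : ℤ))))).left.1 k =
        f.1 (k - i) := by
      rw [h0]
      show f.1 (k - -(-(i : ℤ))) = f.1 (k - i)
      rw [neg_neg]
    rw [h1]
    have h2 : f.1 (k - i) = 1 := by
      by_contra h
      have := hb h
      have h3 : -b ≤ i := by
        have := Int.self_le_toNat (-b)
        omega
      omega
    rw [h2]
    exact K.one_mem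

theorem coam (K : Subgroup G) : CoAmenable (Hs K) := by
  refine ⟨fun f => mn fun i => f (xs K i), ?_⟩
  have hinl : ∀ (g : FS G) (f : Ga G ⧸ Hs K → ℝ), (∃ C : ℝ, ∀ x, |f x| ≤ C) →
      mn (fun i => f ((SemidirectProduct.inl g : Ga G) • xs K i)) = mn fun i => f (xs K i) := by
    rintro g f ⟨C, hC⟩
    obtain ⟨i0, hi0⟩ := inl_xs K g
    refine mn_eq _ _ C C (i0 * (C + C)) (fun n => hC _) (fun n => hC _) fun n => ?_
    calc |∑ i ∈ range (n + 1), (f ((SemidirectProduct.inl g : Ga G) • xs K i) - f (xs K i))| ≤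
        ∑ i ∈ range (n + 1), |f ((SemidirectProduct.inl g : Ga G) • xs K i) - f (xs K i)| :=
          abs_sum_le_sum_abs _ _
      _ ≤ ∑ i ∈ range (n + 1), if i < i0 then C + C else 0 := by
        refine sum_le_sum fun i _ => ?_
        split_ifs with h
        · exact (abs_sub _ _).trans (add_le_add (hC _) (hC _))
        · rw [hi0 i (not_lt.1 h), sub_self, abs_zero]
      _ ≤ _ := by
        rw [← sum_filter, sum_const, nsmul_eq_mul]
        have hC0 : 0 ≤ C := (abs_nonneg _).trans (hC (xs K 0))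
        refine mul_le_mul_of_nonneg_right ?_ (by positivity)
        have : (filter (fun i => i < i0) (range (n + 1))).card ≤ i0 := by
          calc _ ≤ (range i0).card := card_le_card fun i hi => by
                rw [mem_filter] at hi
                exact mem_range.2 hi.2
            _ = i0 := card_range _
        exact_mod_cast this
  have hs : ∀ (f : Ga G ⧸ Hs K → ℝ), (∃ C : ℝ, ∀ x, |f x| ≤ C) →
      mn (fun i => f ((sgen : Ga G) • xs K i)) = mn fun i => f (xs K i) := by
    rintro f ⟨C, hC⟩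
    refine mn_eq _ _ C C (C + C) (fun n => hC _) (fun n => hC _) fun n => ?_
    have h1 : ∑ i ∈ range (n + 1), (f ((sgen : Ga G) • xs K i) - f (xs K i)) =
        f ((sgen : Ga G) • xs K 0) - f (xs K n) := by
      rw [sum_sub_distrib, sum_range_succ', sum_range_succ]
      simp only [sgen_xs]
      ring
    rw [h1]
    exact (abs_sub _ _).trans (add_le_add (hC _) (hC _))
  -- the stabilizer of the mean
  let St : Subgroup (Ga G) :=
    { carrier := {g | ∀ (f : Ga G ⧸ Hs K → ℝ), (∃ C : ℝ, ∀ x, |f x| ≤ C) →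
        mn (fun i => f (g • xs K i)) = mn fun i => f (xs K i)}
      one_mem' := fun f _ => by simp
      mul_mem' := by
        intro a b ha hb f hf
        obtain ⟨C, hC⟩ := hf
        have h1 := hb (fun x => f (a • x)) ⟨C, fun x => hC _⟩
        simp only [mul_smul] at h1 ⊢
        rw [h1]
        exact ha f ⟨C, hC⟩
      inv_mem' := by
        intro a ha f hf
        obtain ⟨C, hC⟩ := hf
        have h1 := ha (fun x => f (a⁻¹ • x)) ⟨C, fun x => hC _⟩
        simp only [inv_smul_smul] at h1
        exact h1.symm }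
  have hall : ∀ g : Ga G, g ∈ St := by
    intro g
    have h1 : g = SemidirectProduct.inl g.left * sgen ^ (Multiplicative.toAdd g.right) := by
      have h2 : (sgen : Ga G) ^ (Multiplicative.toAdd g.right) = SemidirectProduct.inr g.right := by
        unfold sgen
        rw [← map_zpow, ← ofAdd_zsmul]
        simp
      rw [h2, SemidirectProduct.inl_left_mul_inr_right]
    rw [h1]
    exact St.mul_mem (fun f hf => hinl _ f hf) (St.zpow_mem (fun f hf => hs f hf) _)
  refine ⟨mn_one, ?_, ?_, ?_, ?_⟩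
  · rintro f ⟨C, hC⟩ h0
    exact mn_nonneg _ C (fun n => hC _) fun n => h0 _
  · rintro f g ⟨C, hC⟩ ⟨D, hD⟩
    exact mn_add _ _ C D (fun n => hC _) fun n => hD _
  · rintro c f ⟨C, hC⟩
    exact mn_smul c _ C fun n => hC _
  · intro g f hf
    exact hall g f hf

end grp

theorem t_GRP : S_GRP := by
  intro G _ K hc hG
  exact ⟨Ga G, inferInstance, Hs K, jj, countable_Ga hc, coam K, rf_Hs K hG, jj_mem K⟩

end Pool.Agent.P8H5.RE
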